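import Mathlib

/-!
# MP_188fab_co, Q1: part (b) fails in characteristic two

For `G = H = K_3` the ideal `J_{G,H}` is generated by the nine `2 × 2` minors of a generic
`3 × 3` matrix. These minors are algebraically independent over every field, so the analytic spread
is `9`. The Jacobian matrix is a `9 × 9` matrix, and by Euler's formula it kills the vector of
variables in characteristic two, because the minors are quadrics.
-/

set_option autoImplicit false

namespace Pool.Agent.Results.MP_188fab_co.CharTwo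

open MvPolynomial

/-- The edges `{i, j}` of a graph on an ordered vertex set, written as pairs `(i, j)`, `i < j`. -/
abbrev Edge {V : Type} [LinearOrder V] (G : SimpleGraph V) : Type :=
  {p : V × V // p.1 < p.2 ∧ G.Adj p.1 p.2}

/-- The binomial `x_{i,k} x_{j,l} - x_{i,l} x_{j,k}` of an edge `{i, j}` of `G` and an edge
`{k, l}` of `H`. -/
noncomputable def gen (F : Type) [Field F] {V W : Type} [LinearOrder V] [LinearOrder W]
    (G : SimpleGraph V) (H : SimpleGraph W) (p : Edge G × Edge H) : MvPolynomial (V × W) F :=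
  X (p.1.1.1, p.2.1.1) * X (p.1.1.2, p.2.1.2) - X (p.1.1.1, p.2.1.2) * X (p.1.1.2, p.2.1.1)

/-- The ideal `J_{G,H}`. -/
noncomputable def J (F : Type) [Field F] {V W : Type} [LinearOrder V] [LinearOrder W]
    (G : SimpleGraph V) (H : SimpleGraph W) : Ideal (MvPolynomial (V × W) F) :=
  Ideal.span (Set.range (gen F G H))

/-- The Jacobian matrix of the generators of `J_{G,H}`, over the field of rational functions. -/
noncomputable def jacobian (F : Type) [Field F] {V W : Type} [LinearOrder V] [LinearOrder W]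
    (G : SimpleGraph V) (H : SimpleGraph W) :
    Matrix (Edge G × Edge H) (V × W) (FractionRing (MvPolynomial (V × W) F)) :=
  Matrix.of fun p v => algebraMap _ _ (pderiv v (gen F G H p))

/-- The analytic spread of an ideal `I` of a polynomial ring: the Krull dimension of
`⨁ I ^ t / m I ^ t`, that is of the Rees algebra `⨁ I ^ t` modulo the ideal generated by the
maximal ideal `m` generated by the variables. -/
noncomputable def analyticSpread {F σ : Type} [Field F] (I : Ideal (MvPolynomial σ F)) :
    WithBot ℕ∞ :=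
  ringKrullDim (reesAlgebra I ⧸
    (Ideal.span (Set.range X) : Ideal (MvPolynomial σ F)).map
      (algebraMap (MvPolynomial σ F) (reesAlgebra I)))

/-! ### Leading forms -/

section Leading

variable {F σ : Type} [Field F]

theorem hc_eq_zero {n m : ℕ} {a : MvPolynomial σ F} (ha : a ∈ idealOfVars σ F ^ n) (h : m < n) :
    homogeneousComponent m a = 0 := by
  rw [mem_pow_idealOfVars_iff'] at ha
  ext d
  rw [coeff_homogeneousComponent, coeff_zero]
  split_ifs with hd
  · exact ha d (by omega)
  · rfl

theorem sub_hc_mem {n : ℕ} {a : MvPolynomial σ F} (ha : a ∈ idealOfVars σ F ^ n) :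
    a - homogeneousComponent n a ∈ idealOfVars σ F ^ (n + 1) := by
  rw [mem_pow_idealOfVars_iff'] at ha ⊢
  intro d hd
  rw [coeff_sub, coeff_homogeneousComponent]
  split_ifs with h
  · simp
  · rw [ha d (by omega), sub_zero]

theorem hc_mem {n : ℕ} (a : MvPolynomial σ F) :
    homogeneousComponent n a ∈ idealOfVars σ F ^ n := by
  rw [mem_pow_idealOfVars_iff']
  intro d hd
  rw [coeff_homogeneousComponent, if_neg (by omega)]

theorem hc_mul {p q : ℕ} {a b : MvPolynomial σ F} (ha : a ∈ idealOfVars σ F ^ p)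
    (hb : b ∈ idealOfVars σ F ^ q) :
    homogeneousComponent (p + q) (a * b) =
      homogeneousComponent p a * homogeneousComponent q b := by
  have h1 : a * b = homogeneousComponent p a * homogeneousComponent q b +
      ((a - homogeneousComponent p a) * b +
        homogeneousComponent p a * (b - homogeneousComponent q b)) := by ring
  have h2 : (a - homogeneousComponent p a) * b +
      homogeneousComponent p a * (b - homogeneousComponent q b) ∈
        idealOfVars σ F ^ (p + q + 1) := by
    refine Ideal.add_mem _ ?_ ?_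
    · have := Ideal.mul_mem_mul (sub_hc_mem ha) hb
      rwa [← pow_add, show p + 1 + q = p + q + 1 by ring] at this
    · have := Ideal.mul_mem_mul (hc_mem (n := p) a) (sub_hc_mem hb)
      rwa [← pow_add, show p + (q + 1) = p + q + 1 by ring] at this
  rw [h1, map_add, hc_eq_zero h2 (by omega), add_zero]
  exact homogeneousComponent_eq_self
    ((homogeneousComponent_isHomogeneous p a).mul (homogeneousComponent_isHomogeneous q b))

variable (I : Ideal (MvPolynomial σ F)) (hI : I ≤ idealOfVars σ F ^ 2)

include hI in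
theorem pow_le (n : ℕ) : I ^ n ≤ idealOfVars σ F ^ (2 * n) := by
  rw [pow_mul]
  exact Ideal.pow_right_mono hI n

/-- The leading form map on the Rees algebra, as a function. -/
noncomputable def leadFun (a : Polynomial (MvPolynomial σ F)) : Polynomial (MvPolynomial σ F) :=
  ∑ n ∈ a.support, Polynomial.monomial n (homogeneousComponent (2 * n) (a.coeff n))

theorem coeff_leadFun (a : Polynomial (MvPolynomial σ F)) (n : ℕ) :
    (leadFun a).coeff n = homogeneousComponent (2 * n) (a.coeff n) := by
  rw [leadFun, Polynomial.finsetSum_coeff]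
  simp only [Polynomial.coeff_monomial]
  rw [Finset.sum_ite_eq' a.support n]
  split_ifs with h
  · rfl
  · rw [Polynomial.notMem_support_iff.1 h, map_zero]

/-- The leading form map on the Rees algebra. -/
noncomputable def lead (I : Ideal (MvPolynomial σ F)) (hI : I ≤ idealOfVars σ F ^ 2) :
    reesAlgebra I →+* Polynomial (MvPolynomial σ F) where
  toFun a := leadFun (a : Polynomial (MvPolynomial σ F))
  map_one' := by
    ext1 n
    rw [coeff_leadFun]
    rcases Nat.eq_zero_or_pos n with rfl | hn
    · simp only [OneMemClass.coe_one, Polynomial.coeff_one, if_true, mul_zero]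
      rw [homogeneousComponent_zero]
      simp
    · simp only [OneMemClass.coe_one, Polynomial.coeff_one]
      rw [if_neg (by omega), map_zero]
  map_mul' a b := by
    ext1 n
    rw [coeff_leadFun, Polynomial.coeff_mul]
    rw [show ((a * b : reesAlgebra I) : Polynomial (MvPolynomial σ F)) =
      (a : Polynomial (MvPolynomial σ F)) * (b : Polynomial (MvPolynomial σ F)) from rfl,
      Polynomial.coeff_mul, map_sum]
    refine Finset.sum_congr rfl fun x hx => ?_
    rw [Finset.HasAntidiagonal.mem_antidiagonal] at hx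
    rw [coeff_leadFun, coeff_leadFun, ← hx, mul_add]
    exact hc_mul (pow_le I hI _ (a.2 x.1)) (pow_le I hI _ (b.2 x.2))
  map_zero' := by
    ext1 n
    rw [coeff_leadFun]
    simp
  map_add' a b := by
    ext1 n
    rw [Polynomial.coeff_add, coeff_leadFun, coeff_leadFun, coeff_leadFun,
      show ((a + b : reesAlgebra I) : Polynomial (MvPolynomial σ F)) =
      (a : Polynomial (MvPolynomial σ F)) + (b : Polynomial (MvPolynomial σ F)) from rfl,
      Polynomial.coeff_add, map_add]

theorem lead_algebraMap (hI : I ≤ idealOfVars σ F ^ 2) (r : MvPolynomial σ F) :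
    lead I hI (algebraMap _ _ r) = Polynomial.C (C (coeff 0 r)) := by
  ext1 n
  change (leadFun _).coeff n = _
  rw [coeff_leadFun]
  rw [show ((algebraMap (MvPolynomial σ F) (reesAlgebra I) r : reesAlgebra I) :
    Polynomial (MvPolynomial σ F)) = Polynomial.C r from rfl, Polynomial.coeff_C,
    Polynomial.coeff_C]
  split_ifs with h
  · subst h
    rw [mul_zero, homogeneousComponent_zero]
  · rw [map_zero]

theorem lead_ker (hI : I ≤ idealOfVars σ F ^ 2) :
    ∀ a ∈ (Ideal.span (Set.range X) : Ideal (MvPolynomial σ F)).map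
      (algebraMap (MvPolynomial σ F) (reesAlgebra I)), lead I hI a = 0 := by
  intro a ha
  have : (Ideal.span (Set.range X) : Ideal (MvPolynomial σ F)).map
      (algebraMap (MvPolynomial σ F) (reesAlgebra I)) ≤ RingHom.ker (lead I hI) := by
    rw [Ideal.map_span, Ideal.span_le]
    rintro _ ⟨_, ⟨i, rfl⟩, rfl⟩
    rw [SetLike.mem_coe, RingHom.mem_ker, lead_algebraMap]
    simp
  exact this ha

/-- The leading form map on the fibre ring. -/
noncomputable def fibreMap (hI : I ≤ idealOfVars σ F ^ 2) :
    (reesAlgebra I ⧸ (Ideal.span (Set.range X) : Ideal (MvPolynomial σ F)).map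
      (algebraMap (MvPolynomial σ F) (reesAlgebra I))) →+* Polynomial (MvPolynomial σ F) :=
  Ideal.Quotient.lift _ (lead I hI) (lead_ker I hI)

/-- The fibre ring. -/
abbrev Fib (I : Ideal (MvPolynomial σ F)) : Type :=
  reesAlgebra I ⧸ (Ideal.span (Set.range X) : Ideal (MvPolynomial σ F)).map
    (algebraMap (MvPolynomial σ F) (reesAlgebra I))

/-- The quotient map to the fibre ring. -/
noncomputable def mkF : reesAlgebra I →+* Fib I := Ideal.Quotient.mk _

theorem mkF_surjective : Function.Surjective (mkF I) := Ideal.Quotient.mk_surjective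

/-- Constants from the polynomial ring, in the Rees algebra. -/
noncomputable def cst : MvPolynomial σ F →+* reesAlgebra I := algebraMap _ _

theorem mkF_cst (r : MvPolynomial σ F) : mkF I (cst I r) = mkF I (cst I (C (coeff 0 r))) := by
  refine Ideal.Quotient.eq.2 ?_
  rw [← map_sub]
  refine Ideal.mem_map_of_mem _ ?_
  have h := (mem_pow_idealOfVars_iff' 1 (r - C (coeff 0 r))).2 ?_
  · rwa [pow_one] at h
  · intro x hx
    have hx0 : x = 0 := by
      rw [Nat.lt_one_iff] at hx
      exact (Finsupp.degree_eq_zero_iff x).1 hx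
    subst hx0
    simp

/-- Elements of `I` in degree one of the Rees algebra. -/
noncomputable def deg1 : I →+ reesAlgebra I where
  toFun f := ⟨Polynomial.monomial 1 f.1, reesAlgebra.monomial_mem.2 (by rw [pow_one]; exact f.2)⟩
  map_zero' := by
    apply Subtype.ext
    simp
  map_add' x y := by
    apply Subtype.ext
    simp

theorem deg1_smul (r : MvPolynomial σ F) (x : I) : deg1 I (r • x) = cst I r * deg1 I x := by
  apply Subtype.ext
  change Polynomial.monomial 1 (r * x.1) = Polynomial.C r * Polynomial.monomial 1 x.1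
  rw [Polynomial.C_mul_monomial]

/-- The polynomial ring on generators of degree two maps to the fibre ring. -/
noncomputable def toFib {ι : Type} (g : ι → MvPolynomial σ F) (hgI : ∀ i, g i ∈ I) :
    MvPolynomial ι F →+* Fib I :=
  eval₂Hom ((mkF I).comp ((cst I).comp C)) fun i => mkF I (deg1 I ⟨g i, hgI i⟩)

theorem toFib_surjective {ι : Type} (g : ι → MvPolynomial σ F) (hgI : ∀ i, g i ∈ I)
    (hspan : I = Ideal.span (Set.range g)) : Function.Surjective (toFib I g hgI) := by
  have hconst : ∀ r : MvPolynomial σ F, mkF I (cst I r) ∈ (toFib I g hgI).range := by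
    intro r
    rw [mkF_cst]
    exact ⟨C (coeff 0 r), by simp [toFib]⟩
  have hdeg : ∀ x : MvPolynomial σ F, x ∈ Ideal.span (Set.range g) → ∀ h : x ∈ I,
      mkF I (deg1 I ⟨x, h⟩) ∈ (toFib I g hgI).range := by
    intro x hx
    induction hx using Submodule.span_induction with
    | mem x hx =>
      intro h
      obtain ⟨i, rfl⟩ := hx
      exact ⟨X i, by simp [toFib]⟩
    | zero =>
      intro h
      rw [show (⟨0, h⟩ : I) = 0 from rfl, map_zero, map_zero]
      exact (toFib I g hgI).range.zero_mem
    | add x y hx hy h1 h2 =>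
      intro h
      have hx' : x ∈ I := by rw [hspan]; exact hx
      have hy' : y ∈ I := by rw [hspan]; exact hy
      rw [show (⟨x + y, h⟩ : I) = ⟨x, hx'⟩ + ⟨y, hy'⟩ from rfl, map_add, map_add]
      exact (toFib I g hgI).range.add_mem (h1 hx') (h2 hy')
    | smul r x hx h1 =>
      intro h
      have hx' : x ∈ I := by rw [hspan]; exact hx
      rw [show (⟨r • x, h⟩ : I) = r • ⟨x, hx'⟩ from rfl, deg1_smul, map_mul]
      exact (toFib I g hgI).range.mul_mem (hconst r) (h1 hx')
  have key : ∀ a : Polynomial (MvPolynomial σ F), a ∈ Algebra.adjoin (MvPolynomial σ F)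
      (Submodule.map (Polynomial.monomial 1 : MvPolynomial σ F →ₗ[MvPolynomial σ F] _) I :
        Set (Polynomial (MvPolynomial σ F))) → ∀ h : a ∈ reesAlgebra I,
      mkF I ⟨a, h⟩ ∈ (toFib I g hgI).range := by
    intro a ha
    induction ha using Algebra.adjoin_induction with
    | mem x hx =>
      intro h
      obtain ⟨f, hf, rfl⟩ := hx
      have hf1 : f ∈ I := hf
      exact hdeg f (by rw [← hspan]; exact hf) hf
    | algebraMap r =>
      intro h
      exact hconst r
    | add x y hx hy h1 h2 =>
      intro h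
      have hx' : x ∈ reesAlgebra I := by rw [← adjoin_monomial_eq_reesAlgebra]; exact hx
      have hy' : y ∈ reesAlgebra I := by rw [← adjoin_monomial_eq_reesAlgebra]; exact hy
      rw [show (⟨x + y, h⟩ : reesAlgebra I) = ⟨x, hx'⟩ + ⟨y, hy'⟩ from rfl, map_add]
      exact (toFib I g hgI).range.add_mem (h1 hx') (h2 hy')
    | mul x y hx hy h1 h2 =>
      intro h
      have hx' : x ∈ reesAlgebra I := by rw [← adjoin_monomial_eq_reesAlgebra]; exact hx
      have hy' : y ∈ reesAlgebra I := by rw [← adjoin_monomial_eq_reesAlgebra]; exact hy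
      rw [show (⟨x * y, h⟩ : reesAlgebra I) = ⟨x, hx'⟩ * ⟨y, hy'⟩ from rfl, map_mul]
      exact (toFib I g hgI).range.mul_mem (h1 hx') (h2 hy')
  intro z
  obtain ⟨a, rfl⟩ := mkF_surjective I z
  exact key a.1 (by rw [adjoin_monomial_eq_reesAlgebra]; exact a.2) a.2

/-- If `I` is generated by algebraically independent quadratic forms, its analytic spread is their
number. -/
theorem analyticSpread_eq {ι : Type} [Finite ι] (g : ι → MvPolynomial σ F)
    (hspan : I = Ideal.span (Set.range g)) (hg2 : ∀ i, (g i).IsHomogeneous 2)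
    (hg : AlgebraicIndependent F g) : analyticSpread I = ((Nat.card ι : ℕ) : WithBot ℕ∞) := by
  have hgI : ∀ i, g i ∈ I := fun i => by
    rw [hspan]
    exact Ideal.subset_span ⟨i, rfl⟩
  have hI : I ≤ idealOfVars σ F ^ 2 := by
    rw [hspan, Ideal.span_le]
    rintro _ ⟨i, rfl⟩
    rw [SetLike.mem_coe, ← homogeneousComponent_eq_self (hg2 i)]
    exact hc_mem (g i)
  have hcomp : (Polynomial.evalRingHom (1 : MvPolynomial σ F)).comp
      ((fibreMap I hI).comp (toFib I g hgI)) = (aeval g : MvPolynomial ι F →ₐ[F] _).toRingHom := by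
    refine MvPolynomial.ringHom_ext (fun r => ?_) (fun i => ?_)
    · have h1 : fibreMap I hI (toFib I g hgI (C r)) = lead I hI (cst I (C r)) := by
        simp only [toFib, coe_eval₂Hom, eval₂_C]
        rfl
      change Polynomial.eval 1 (fibreMap I hI (toFib I g hgI (C r))) = _
      rw [h1, cst, lead_algebraMap]
      simp
    · have h1 : fibreMap I hI (toFib I g hgI (X i)) = lead I hI (deg1 I ⟨g i, hgI i⟩) := by
        simp only [toFib, coe_eval₂Hom, eval₂_X]
        rfl
      change Polynomial.eval 1 (fibreMap I hI (toFib I g hgI (X i))) = _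
      rw [h1]
      have h2 : lead I hI (deg1 I ⟨g i, hgI i⟩) = Polynomial.monomial 1 (g i) := by
        ext1 n
        change (leadFun (Polynomial.monomial 1 (g i))).coeff n = _
        rw [coeff_leadFun, Polynomial.coeff_monomial]
        split_ifs with h
        · subst h
          exact homogeneousComponent_eq_self (hg2 i)
        · rw [map_zero]
      rw [h2]
      simp
  have hinj : Function.Injective (toFib I g hgI) := by
    rw [injective_iff_map_eq_zero]
    intro P hP
    have h1 : aeval g P = 0 := by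
      have h2 := congrArg (fun f : MvPolynomial ι F →+* MvPolynomial σ F => f P) hcomp
      simp only [RingHom.comp_apply, hP, map_zero] at h2
      exact h2.symm
    exact (injective_iff_map_eq_zero _).1 hg P h1
  have e := RingEquiv.ofBijective (toFib I g hgI) ⟨hinj, toFib_surjective I g hgI hspan⟩
  rw [analyticSpread, ← ringKrullDim_eq_of_ringEquiv e,
    MvPolynomial.ringKrullDim_of_isNoetherianRing, ringKrullDim_eq_zero_of_field, zero_add]

end Leading

/-! ### The nine minors of a generic `3 × 3` matrix -/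

section Minors

/-- The three edges of the triangle. -/
def ed : Fin 3 → Edge (⊤ : SimpleGraph (Fin 3)) :=
  ![⟨(0, 1), by decide⟩, ⟨(0, 2), by decide⟩, ⟨(1, 2), by decide⟩]

theorem ed_surjective : Function.Surjective ed := by
  decide

theorem card_edge : Nat.card (Edge (⊤ : SimpleGraph (Fin 3)) × Edge (⊤ : SimpleGraph (Fin 3))) =
    9 := by
  rw [Nat.card_eq_fintype_card]
  decide

variable (F : Type) [Field F]

theorem gen_isHomogeneous (p : Edge (⊤ : SimpleGraph (Fin 3)) × Edge (⊤ : SimpleGraph (Fin 3))) :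
    (gen F ⊤ ⊤ p).IsHomogeneous 2 := by
  rw [gen]
  exact ((isHomogeneous_X F _).mul (isHomogeneous_X F _)).sub
    ((isHomogeneous_X F _).mul (isHomogeneous_X F _))

/-- The first and the second edge at a vertex of the triangle. -/
def pr : Fin 3 → Fin 3 × Fin 3 := ![(0, 1), (0, 2), (1, 2)]

theorem gen_algebraicIndependent : AlgebraicIndependent F
    (gen F (⊤ : SimpleGraph (Fin 3)) (⊤ : SimpleGraph (Fin 3))) := by
  rw [algebraicIndependent_iff]
  intro P hP
  by_contra hP0
  let K := AlgebraicClosure F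
  let E := Edge (⊤ : SimpleGraph (Fin 3))
  let D : MvPolynomial (E × E) K :=
    X (ed 0, ed 0) * (X (ed 1, ed 1) * X (ed 2, ed 2) - X (ed 1, ed 2) * X (ed 2, ed 1)) -
    X (ed 0, ed 1) * (X (ed 1, ed 0) * X (ed 2, ed 2) - X (ed 1, ed 2) * X (ed 2, ed 0)) +
    X (ed 0, ed 2) * (X (ed 1, ed 0) * X (ed 2, ed 1) - X (ed 1, ed 1) * X (ed 2, ed 0))
  have hD : D ≠ 0 := by
    intro h
    have h1 := congrArg (eval fun p : E × E => if p.1 = p.2 then (1 : K) else 0) h
    simp only [D, map_add, map_sub, map_mul, eval_X, map_zero] at h1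
    have e01 : ed 0 ≠ ed 1 := by decide
    have e02 : ed 0 ≠ ed 2 := by decide
    have e12 : ed 1 ≠ ed 2 := by decide
    simp [e01, e02, e12, e01.symm, e02.symm, e12.symm] at h1
  have hP' : map (algebraMap F K) P ≠ 0 := by
    intro h
    exact hP0 ((map_injective _ (algebraMap F K).injective) (by rw [h, map_zero]))
  obtain ⟨T, hT⟩ : ∃ T : E × E → K, eval T (map (algebraMap F K) P * D) ≠ 0 := by
    by_contra hcon
    push Not at hcon
    exact mul_ne_zero hP' hD (MvPolynomial.funext fun T => by rw [hcon T, map_zero])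
  rw [map_mul] at hT
  have hT1 := left_ne_zero_of_mul hT
  have hT2 := right_ne_zero_of_mul hT
  obtain ⟨c, hc⟩ := IsAlgClosed.exists_pow_nat_eq (eval T D)⁻¹ (n := 2) (by norm_num)
  have hcD : c ^ 2 * eval T D = 1 := by
    rw [hc]
    exact inv_mul_cancel₀ hT2
  simp only [D, map_add, map_sub, map_mul, eval_X] at hcD
  let x : Fin 3 × Fin 3 → K := fun v =>
    c * (T (ed (pr v.1).1, ed (pr v.2).1) * T (ed (pr v.1).2, ed (pr v.2).2) -
      T (ed (pr v.1).1, ed (pr v.2).2) * T (ed (pr v.1).2, ed (pr v.2).1))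
  let t : Fin 3 → Fin 3 → K := fun a b => T (ed a, ed b)
  have hcD' : c ^ 2 * (t 0 0 * (t 1 1 * t 2 2 - t 1 2 * t 2 1) -
    t 0 1 * (t 1 0 * t 2 2 - t 1 2 * t 2 0) + t 0 2 * (t 1 0 * t 2 1 - t 1 1 * t 2 0)) = 1 := hcD
  have hx00 : x (0, 0) = c * (t 0 0 * t 1 1 - t 0 1 * t 1 0) := rfl
  have hx01 : x (0, 1) = c * (t 0 0 * t 1 2 - t 0 2 * t 1 0) := rfl
  have hx02 : x (0, 2) = c * (t 0 1 * t 1 2 - t 0 2 * t 1 1) := rfl
  have hx10 : x (1, 0) = c * (t 0 0 * t 2 1 - t 0 1 * t 2 0) := rfl
  have hx11 : x (1, 1) = c * (t 0 0 * t 2 2 - t 0 2 * t 2 0) := rfl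
  have hx12 : x (1, 2) = c * (t 0 1 * t 2 2 - t 0 2 * t 2 1) := rfl
  have hx20 : x (2, 0) = c * (t 1 0 * t 2 1 - t 1 1 * t 2 0) := rfl
  have hx21 : x (2, 1) = c * (t 1 0 * t 2 2 - t 1 2 * t 2 0) := rfl
  have hx22 : x (2, 2) = c * (t 1 1 * t 2 2 - t 1 2 * t 2 1) := rfl
  have hxt : ∀ a b : Fin 3, x ((ed a).1.1, (ed b).1.1) * x ((ed a).1.2, (ed b).1.2) -
      x ((ed a).1.1, (ed b).1.2) * x ((ed a).1.2, (ed b).1.1) = t a b := by
    intro a b
    fin_cases a <;> fin_cases b
    · change x (0, 0) * x (1, 1) - x (0, 1) * x (1, 0) = t 0 0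
      rw [hx00, hx11, hx01, hx10]
      linear_combination t 0 0 * hcD'
    · change x (0, 0) * x (1, 2) - x (0, 2) * x (1, 0) = t 0 1
      rw [hx00, hx12, hx02, hx10]
      linear_combination t 0 1 * hcD'
    · change x (0, 1) * x (1, 2) - x (0, 2) * x (1, 1) = t 0 2
      rw [hx01, hx12, hx02, hx11]
      linear_combination t 0 2 * hcD'
    · change x (0, 0) * x (2, 1) - x (0, 1) * x (2, 0) = t 1 0
      rw [hx00, hx21, hx01, hx20]
      linear_combination t 1 0 * hcD'
    · change x (0, 0) * x (2, 2) - x (0, 2) * x (2, 0) = t 1 1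
      rw [hx00, hx22, hx02, hx20]
      linear_combination t 1 1 * hcD'
    · change x (0, 1) * x (2, 2) - x (0, 2) * x (2, 1) = t 1 2
      rw [hx01, hx22, hx02, hx21]
      linear_combination t 1 2 * hcD'
    · change x (1, 0) * x (2, 1) - x (1, 1) * x (2, 0) = t 2 0
      rw [hx10, hx21, hx11, hx20]
      linear_combination t 2 0 * hcD'
    · change x (1, 0) * x (2, 2) - x (1, 2) * x (2, 0) = t 2 1
      rw [hx10, hx22, hx12, hx20]
      linear_combination t 2 1 * hcD'
    · change x (1, 1) * x (2, 2) - x (1, 2) * x (2, 1) = t 2 2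
      rw [hx11, hx22, hx12, hx21]
      linear_combination t 2 2 * hcD'
  have hx : ∀ p : E × E, eval₂ (algebraMap F K) x (gen F ⊤ ⊤ p) = T p := by
    rintro ⟨p, q⟩
    obtain ⟨a, rfl⟩ := ed_surjective p
    obtain ⟨b, rfl⟩ := ed_surjective q
    rw [gen]
    simp only [eval₂_sub, eval₂_mul, eval₂_X]
    exact hxt a b
  have h1 : eval₂ (algebraMap F K) x (aeval (gen F ⊤ ⊤) P) = eval T (map (algebraMap F K) P) := by
    rw [eval_map]
    have h2 : (eval₂Hom (algebraMap F K) x).comp
        (aeval (gen F (⊤ : SimpleGraph (Fin 3)) (⊤ : SimpleGraph (Fin 3))) :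
          MvPolynomial (E × E) F →ₐ[F] _).toRingHom = eval₂Hom (algebraMap F K) T := by
      refine MvPolynomial.ringHom_ext (fun r => ?_) (fun i => ?_)
      · simp
      · have := hx i
        simpa using this
    exact congrArg (fun f : MvPolynomial (E × E) F →+* K => f P) h2
  rw [hP, eval₂_zero] at h1
  exact hT1 h1.symm

/-- The analytic spread of the ideal of `2 × 2` minors of a generic `3 × 3` matrix is nine. -/
theorem analyticSpread_K3 :
    analyticSpread (J F (⊤ : SimpleGraph (Fin 3)) (⊤ : SimpleGraph (Fin 3))) = 9 := by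
  rw [J, analyticSpread_eq _ (gen F ⊤ ⊤) rfl (gen_isHomogeneous F) (gen_algebraicIndependent F),
    card_edge]
  rfl

theorem jacobian_mulVec [CharP F 2] :
    (jacobian F (⊤ : SimpleGraph (Fin 3)) (⊤ : SimpleGraph (Fin 3))).mulVec
      (fun v => algebraMap (MvPolynomial (Fin 3 × Fin 3) F) _ (X v)) = 0 := by
  ext1 p
  have h := (gen_isHomogeneous F p).sum_X_mul_pderiv
  have h2 : (2 : MvPolynomial (Fin 3 × Fin 3) F) = 0 := CharTwo.two_eq_zero
  rw [nsmul_eq_mul, Nat.cast_ofNat, h2, zero_mul] at h
  have h3 := congrArg (algebraMap (MvPolynomial (Fin 3 × Fin 3) F)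
    (FractionRing (MvPolynomial (Fin 3 × Fin 3) F))) h
  rw [map_sum, map_zero] at h3
  simp only [map_mul] at h3
  simp only [Matrix.mulVec, dotProduct, jacobian, Matrix.of_apply, Pi.zero_apply]
  rw [← h3]
  exact Finset.sum_congr rfl fun v _ => mul_comm _ _

theorem rank_jacobian_le [CharP F 2] :
    (jacobian F (⊤ : SimpleGraph (Fin 3)) (⊤ : SimpleGraph (Fin 3))).rank ≤ 8 := by
  set A := jacobian F (⊤ : SimpleGraph (Fin 3)) (⊤ : SimpleGraph (Fin 3)) with hA
  have h1 := LinearMap.finrank_range_add_finrank_ker A.mulVecLin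
  have h2 : Module.finrank (FractionRing (MvPolynomial (Fin 3 × Fin 3) F))
      ((Fin 3 × Fin 3) → FractionRing (MvPolynomial (Fin 3 × Fin 3) F)) = 9 := by
    rw [Module.finrank_pi]
    simp
  have h3 : 0 < Module.finrank (FractionRing (MvPolynomial (Fin 3 × Fin 3) F))
      (LinearMap.ker A.mulVecLin) := by
    rw [Module.finrank_pos_iff_exists_ne_zero]
    refine ⟨⟨fun v => algebraMap (MvPolynomial (Fin 3 × Fin 3) F) _ (X v), ?_⟩, ?_⟩
    · rw [LinearMap.mem_ker, Matrix.mulVecLin_apply]
      exact jacobian_mulVec F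
    · intro h
      have h4 := congrFun (congrArg Subtype.val h) ((0, 0) : Fin 3 × Fin 3)
      have h5 : (X ((0, 0) : Fin 3 × Fin 3) : MvPolynomial (Fin 3 × Fin 3) F) = 0 := by
        refine IsFractionRing.injective (MvPolynomial (Fin 3 × Fin 3) F)
          (FractionRing (MvPolynomial (Fin 3 × Fin 3) F)) ?_
        rw [map_zero]
        exact h4
      exact X_ne_zero _ h5
  rw [Matrix.rank]
  omega

end Minors

/-- **Part (b) of Q1 fails in characteristic two**, already for `G = H = K_3`. -/
theorem result (F : Type) [Field F] [CharP F 2] :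
    (jacobian F (⊤ : SimpleGraph (Fin 3)) (⊤ : SimpleGraph (Fin 3))).rank ≤ 8 ∧
      analyticSpread (J F (⊤ : SimpleGraph (Fin 3)) (⊤ : SimpleGraph (Fin 3))) = 9 :=
  ⟨rank_jacobian_le F, analyticSpread_K3 F⟩

end Pool.Agent.Results.MP_188fab_co.CharTwo
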